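import Pool.Agent.K6.H80.EQ.Main

set_option autoImplicit false

/-!
# The equality problem in the varieties `M(n)`, `n ≥ 3`, is undecidable

`M(n)` is the variety of associative algebras over a field `F` of characteristic zero generated by
the algebra of `n × n` matrices. The definitions (`Poly`, `QuasiId`, `HoldsIn`, `InM`, `HoldsInM`)
are in `Pool/Agent/K6/H80/EQ/Defs.lean`.

For `n ≥ 3` no algorithm decides which quasi-identities hold in `M(n)`. There are even finitely many
relations `U` (the same for all `F` and `n`) such that the word problem for the algebra presented
by `U` in `M(n)` is undecidable.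

Proof. A machine with two counters and zero tests is simulated by words `L a^i q b^j R`. If it halts
then the relations imply in all associative algebras that the word of the input is zero. If it does
not halt then there is an algebra which satisfies the relations but in which this word is not zero; it
is a quotient of the algebra of matrices generated by `λ e_12`, `x e_22`, `z e_23`, `y e_33`,
`e_31`, `λ ^ 2 = 0`.
-/

namespace Pool.Agent.Results.MP_79b5eb_lc.MatrixVarieties

open Pool.Agent.K6.H80.EQ

universe u

theorem result : ∃ U : List Poly, ∀ (F : Type u) [Field F] [CharZero F] (n : ℕ), 3 ≤ n →
    -- the word problem for the algebra with the relations `U`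
    ¬ ComputablePred (fun u : Poly => HoldsInM F n (U, u)) ∧
    -- the equality problem
    ¬ ComputablePred (fun q : QuasiId => HoldsInM F n q) := by
  obtain ⟨U, hU⟩ := undecidable.{u}
  refine ⟨U, fun F _ _ n hn => hU F (HoldsInM F n) (fun q h A _ _ _ _ _ => h A) ?_⟩
  exact fun q h K ν => h (AA ν) (inM ν hn)

end Pool.Agent.Results.MP_79b5eb_lc.MatrixVarieties
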