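import Pool.Agent.K6.H80.EQ.Main

set_option autoImplicit false

/-!
# The equality problem in the varieties `S(n)`, `n ≥ 6`, is undecidable

`S(n)` is the variety of associative algebras over a field `F` which satisfy the standard identity of
degree `n`. The definitions (`Poly`, `QuasiId`, `HoldsIn`, `InS`, `HoldsInS`) are in
`Pool/Agent/K6/H80/EQ/Defs.lean`.

For `n ≥ 6` no algorithm decides which quasi-identities hold in `S(n)`. There are even finitely many
relations `U` (the same for all `F` and `n`) such that the word problem for the algebra presented
by `U` in `S(n)` is undecidable.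
-/

namespace Pool.Agent.Results.MP_79b5eb_lc.StandardVarieties

open Pool.Agent.K6.H80.EQ

universe u

theorem result : ∃ U : List Poly, ∀ (F : Type u) [Field F] [CharZero F] (n : ℕ), 6 ≤ n →
    -- the word problem for the algebra with the relations `U`
    ¬ ComputablePred (fun u : Poly => HoldsInS F n (U, u)) ∧
    -- the equality problem
    ¬ ComputablePred (fun q : QuasiId => HoldsInS F n q) := by
  obtain ⟨U, hU⟩ := undecidable.{u}
  refine ⟨U, fun F _ _ n hn => hU F (HoldsInS F n) (fun q h A _ _ _ _ _ => h A) ?_⟩
  exact fun q h K ν => h (AA ν) (inS ν hn)

end Pool.Agent.Results.MP_79b5eb_lc.StandardVarieties
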